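import Mathlib

/-!
Definitions for MP_523de7_an (lower growth rate versus Hausdorff dimension of the set of
beta-expansions).
-/

noncomputable section

namespace Pool.Agent.MP_523de7_an

/-- Digit sequences `(ε_n)_{n ≥ 1}` in `{0, 1}^ℕ`; the digit `ε_{n+1}` is `ε n`. -/
def DigitSeq : Type := ℕ → Fin 2

open Classical in
/-- The distance `d(y, z) = 2^{-n(y,z)}` for `y ≠ z`, where `n(y, z) = min {i ≥ 1 : y_i ≠ z_i}`
is the first index of difference counted from `0`, plus one; and `d(y, y) = 0`. -/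
def seqDist (y z : DigitSeq) : ℝ :=
  if y = z then 0 else (1 / 2 : ℝ) ^ (sInf {i : ℕ | y i ≠ z i} + 1)

lemma seqDist_self (y : DigitSeq) : seqDist y y = 0 := by simp [seqDist]

lemma seqDist_comm (y z : DigitSeq) : seqDist y z = seqDist z y := by
  unfold seqDist
  have h1 : {i : ℕ | y i ≠ z i} = {i : ℕ | z i ≠ y i} := by
    ext i; exact ne_comm
  rw [h1]
  by_cases h : y = z
  · rw [if_pos h, if_pos h.symm]
  · rw [if_neg h, if_neg (Ne.symm h)]

lemma seqDist_nonneg (y z : DigitSeq) : 0 ≤ seqDist y z := by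
  unfold seqDist
  split_ifs <;> positivity

lemma seqDist_ge {y z : DigitSeq} {n : ℕ} (h : y n ≠ z n) :
    (1 / 2 : ℝ) ^ (n + 1) ≤ seqDist y z := by
  have h' : y ≠ z := fun e => h (congrFun e n)
  unfold seqDist
  rw [if_neg h']
  apply pow_le_pow_of_le_one (by norm_num) (by norm_num)
  have : sInf {i : ℕ | y i ≠ z i} ≤ n := Nat.sInf_le h
  omega

lemma seqDist_triangle (x y z : DigitSeq) : seqDist x z ≤ seqDist x y + seqDist y z := by
  by_cases h : x = z
  · subst h
    rw [seqDist_self]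
    exact add_nonneg (seqDist_nonneg _ _) (seqDist_nonneg _ _)
  · have hne : {i : ℕ | x i ≠ z i}.Nonempty := by
      by_contra hemp
      rw [Set.not_nonempty_iff_eq_empty] at hemp
      apply h
      refine funext fun i => ?_
      by_contra hi
      have h2 : i ∈ {i : ℕ | x i ≠ z i} := fun e => hi e
      rw [hemp] at h2
      exact h2
    have e : seqDist x z = (1 / 2 : ℝ) ^ (sInf {i : ℕ | x i ≠ z i} + 1) := by
      unfold seqDist
      rw [if_neg h]
    have hs : x (sInf {i : ℕ | x i ≠ z i}) ≠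
      z (sInf {i : ℕ | x i ≠ z i}) := Nat.sInf_mem hne
    rw [e]
    generalize sInf {i : ℕ | x i ≠ z i} = m at hs ⊢
    by_cases h1 : x m = y m
    · have h2 : y m ≠ z m := h1 ▸ hs
      linarith [seqDist_ge h2, seqDist_nonneg x y]
    · linarith [seqDist_ge h1, seqDist_nonneg y z]

lemma eq_of_seqDist_eq_zero {y z : DigitSeq} (h : seqDist y z = 0) : y = z := by
  by_contra hne
  obtain ⟨n, hn⟩ := Function.ne_iff.1 hne
  have h1 := seqDist_ge hn
  have h2 : (0 : ℝ) < (1 / 2) ^ (n + 1) := by positivity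
  linarith

instance instMetricSpaceDigitSeq : MetricSpace DigitSeq where
  dist := seqDist
  edist y z := ENNReal.ofReal (seqDist y z)
  edist_dist _ _ := rfl
  dist_self := seqDist_self
  dist_comm := seqDist_comm
  dist_triangle := seqDist_triangle
  eq_of_dist_eq_zero := eq_of_seqDist_eq_zero

/-- `Σ_β(x)`: the set of `β`-expansions of `x`, i.e. digit sequences with
`∑_{n ≥ 1} ε_n β^{-n} = x`. -/
def expansions (β x : ℝ) : Set DigitSeq :=
  {ε | HasSum (fun n : ℕ => ((ε n : ℕ) : ℝ) / β ^ (n + 1)) x}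

/-- The set of `k`-prefixes for `x`. -/
def prefixSet (β x : ℝ) (k : ℕ) : Set (Fin k → Fin 2) :=
  {w | ∃ ε ∈ expansions β x, ∀ i : Fin k, ε i = w i}

/-- `N_k(x, β)`, the number of `k`-prefixes for `x`. -/
def prefixCount (β x : ℝ) (k : ℕ) : ℕ := (prefixSet β x k).ncard

/-- The lower growth rate `liminf_k log_2 N_k(x, β) / k`. -/
def lowerGrowth (β x : ℝ) : ℝ :=
  Filter.liminf (fun k : ℕ => Real.logb 2 (prefixCount β x k) / k) Filter.atTop

end Pool.Agent.MP_523de7_an
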