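import Mathlib
import Pool.Agent.Lib.MP_523de7_an.Defs

/-!
Basic facts on beta-expansions, for MP_523de7_an.
-/

open Filter Topology

noncomputable section

namespace Pool.Agent.MP_523de7_an

/-- value of a digit function -/
def bval (β : ℝ) (e : ℕ → Fin 2) : ℝ := ∑' n : ℕ, ((e n : ℕ) : ℝ) / β ^ (n + 1)

variable {β : ℝ}

lemma digit_le_one (d : Fin 2) : ((d : ℕ) : ℝ) ≤ 1 := by
  have : (d : ℕ) ≤ 1 := by omega
  exact_mod_cast this

lemma summable_geo (hβ : 1 < β) : Summable (fun n : ℕ => (1 : ℝ) / β ^ (n + 1)) := by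
  have h1 : Summable (fun n : ℕ => (1 / β) ^ n) :=
    summable_geometric_of_lt_one (by positivity) (by rw [div_lt_one (by linarith)]; exact hβ)
  have h2 := h1.mul_left (1 / β)
  refine h2.congr (fun n => ?_)
  rw [pow_succ, one_div_pow]
  field_simp

lemma tsum_geo (hβ : 1 < β) : ∑' n : ℕ, (1 : ℝ) / β ^ (n + 1) = 1 / (β - 1) := by
  have h1 : ∑' n : ℕ, (1 / β) ^ n = (1 - 1 / β)⁻¹ :=
    tsum_geometric_of_lt_one (by positivity) (by rw [div_lt_one (by linarith)]; exact hβ)
  have h2 : ∑' n : ℕ, (1 : ℝ) / β ^ (n + 1) = ∑' n : ℕ, (1 / β) * (1 / β) ^ n := by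
    apply tsum_congr
    intro n
    rw [pow_succ, one_div_pow]
    field_simp
  rw [h2, tsum_mul_left, h1]
  have hb : β ≠ 0 := by linarith
  have hb1 : β - 1 ≠ 0 := by linarith
  field_simp

lemma summable_digits (hβ : 1 < β) (e : ℕ → Fin 2) :
    Summable (fun n : ℕ => ((e n : ℕ) : ℝ) / β ^ (n + 1)) := by
  have hb : 0 < β := by linarith
  refine Summable.of_nonneg_of_le (fun n => by positivity) (fun n => ?_) (summable_geo hβ)
  have := digit_le_one (e n)
  gcongr

lemma bval_nonneg (hβ : 1 < β) (e : ℕ → Fin 2) : 0 ≤ bval β e := by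
  have hb : 0 < β := by linarith
  exact tsum_nonneg (fun n => by positivity)

lemma bval_le (hβ : 1 < β) (e : ℕ → Fin 2) : bval β e ≤ 1 / (β - 1) := by
  have hb : 0 < β := by linarith
  rw [← tsum_geo hβ]
  refine (summable_digits hβ e).tsum_le_tsum (fun n => ?_) (summable_geo hβ)
  have := digit_le_one (e n)
  gcongr

lemma mem_expansions_iff (hβ : 1 < β) {x : ℝ} {ε : DigitSeq} :
    ε ∈ expansions β x ↔ bval β ε = x := by
  constructor
  · intro h
    exact HasSum.tsum_eq h
  · intro h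
    have := (summable_digits hβ ε).hasSum
    unfold expansions
    show HasSum _ x
    rw [← h]
    exact this

lemma bval_succ (hβ : 1 < β) (e : ℕ → Fin 2) :
    bval β (fun n => e (n + 1)) = β * bval β e - ((e 0 : ℕ) : ℝ) := by
  have hb : β ≠ 0 := by linarith
  have h := (summable_digits hβ e).tsum_eq_zero_add
  have h2 : ∑' n : ℕ, ((e (n + 1) : ℕ) : ℝ) / β ^ (n + 1 + 1)
      = (1 / β) * bval β (fun n => e (n + 1)) := by
    unfold bval
    rw [← tsum_mul_left]
    apply tsum_congr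
    intro n
    rw [pow_succ β (n + 1)]
    field_simp
  unfold bval at *
  rw [h, h2]
  simp only [zero_add, pow_one]
  field_simp
  ring

/-- tail values -/
def tl (β : ℝ) (e : ℕ → Fin 2) (n : ℕ) : ℝ := bval β (fun i => e (n + i))

lemma tl_zero (e : ℕ → Fin 2) : tl β e 0 = bval β e := by
  unfold tl
  congr 1
  funext i
  rw [zero_add]

lemma tl_succ (hβ : 1 < β) (e : ℕ → Fin 2) (n : ℕ) :
    tl β e (n + 1) = β * tl β e n - ((e n : ℕ) : ℝ) := by
  have := bval_succ hβ (fun i => e (n + i))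
  unfold tl
  simp only [add_zero] at this
  rw [← this]
  congr 1
  funext i
  congr 1
  ring

lemma tl_nonneg (hβ : 1 < β) (e : ℕ → Fin 2) (n : ℕ) : 0 ≤ tl β e n := bval_nonneg hβ _

lemma tl_le (hβ : 1 < β) (e : ℕ → Fin 2) (n : ℕ) : tl β e n ≤ 1 / (β - 1) := bval_le hβ _

/-- A bounded sequence with `δ (n+1) = β δ n` vanishes. -/
lemma zero_of_bounded (hβ : 1 < β) {δ : ℕ → ℝ} (h : ∀ n, δ (n + 1) = β * δ n) {C : ℝ}
    (hC : ∀ n, |δ n| ≤ C) : δ 0 = 0 := by
  by_contra hne
  have hpow : ∀ n, δ n = β ^ n * δ 0 := by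
    intro n
    induction n with
    | zero => simp
    | succ n ih => rw [h, ih, pow_succ]; ring
  have hpos : 0 < |δ 0| := abs_pos.2 hne
  have hb : 0 < β := by linarith
  obtain ⟨n, hn⟩ := pow_unbounded_of_one_lt (C / |δ 0|) hβ
  have h1 := hC n
  rw [hpow n, abs_mul, abs_of_pos (by positivity)] at h1
  rw [div_lt_iff₀ hpos] at hn
  linarith

/-- Greedy remainders. -/
def rem (β y : ℝ) : ℕ → ℝ
  | 0 => y
  | n + 1 => open Classical in if 1 ≤ β * rem β y n then β * rem β y n - 1 else β * rem β y n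

lemma exists_expansion (hβ : 1 < β) (hβ2 : β ≤ 2) {y : ℝ} (h0 : 0 ≤ y) (h1 : y ≤ 1 / (β - 1)) :
    (expansions β y).Nonempty := by
  classical
  have hb : 0 < β := by linarith
  have hb1 : 0 < β - 1 := by linarith
  have hr : ∀ n, 0 ≤ rem β y n ∧ rem β y n ≤ 1 / (β - 1) := by
    intro n
    induction n with
    | zero => exact ⟨h0, h1⟩
    | succ n ih =>
      obtain ⟨ih1, ih2⟩ := ih
      simp only [rem]
      split_ifs with hc
      · refine ⟨by linarith, ?_⟩
        have h3 : β * rem β y n ≤ β * (1 / (β - 1)) := by gcongr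
        have h4 : β * (1 / (β - 1)) = 1 + 1 / (β - 1) := by field_simp; ring
        linarith
      · refine ⟨by positivity, ?_⟩
        push Not at hc
        have h3 : (1 : ℝ) ≤ 1 / (β - 1) := by
          rw [le_div_iff₀ hb1]; linarith
        linarith
  set e : ℕ → Fin 2 := fun n => if 1 ≤ β * rem β y n then 1 else 0 with he
  have hrem : ∀ n, rem β y (n + 1) = β * rem β y n - ((e n : ℕ) : ℝ) := by
    intro n
    simp only [rem, he]
    split_ifs <;> simp
  refine ⟨e, (mem_expansions_iff hβ).2 ?_⟩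
  have h := zero_of_bounded hβ (δ := fun n => rem β y n - tl β e n) (C := 2 / (β - 1)) ?_ ?_
  · simp only [rem, tl_zero] at h
    show bval β e = y
    linarith
  · intro n
    simp only [hrem, tl_succ hβ]
    ring
  · intro n
    have h2 := hr n
    have h3 := tl_nonneg hβ e n
    have h4 := tl_le hβ e n
    have h5 : (2 : ℝ) / (β - 1) = 1 / (β - 1) + 1 / (β - 1) := by ring
    have h6 : 0 ≤ 1 / (β - 1) := by positivity
    rw [h5, abs_le]
    constructor <;> linarith [h2.1, h2.2]

/-- prepend a digit -/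
def consSeq (d : Fin 2) (ε : DigitSeq) : DigitSeq := fun n => Nat.casesOn n d ε

lemma cons_mem (hβ : 1 < β) {y : ℝ} (d : Fin 2) {ε : DigitSeq}
    (h : ε ∈ expansions β (β * y - ((d : ℕ) : ℝ))) : consSeq d ε ∈ expansions β y := by
  rw [mem_expansions_iff hβ] at h ⊢
  have hb : 0 < β := by linarith
  have h1 := bval_succ hβ (consSeq d ε)
  have h2 : (fun n => (consSeq d ε) (n + 1)) = ε := rfl
  have h3 : (consSeq d ε) 0 = d := rfl
  rw [h2, h3, h] at h1
  have h4 : β * bval β (consSeq d ε) = β * y := by linarith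
  exact mul_left_cancel₀ hb.ne' h4

lemma prefixSet_finite (y : ℝ) (k : ℕ) : (prefixSet β y k).Finite := Set.toFinite _

/-- prepend a digit to a word -/
def consW (k : ℕ) (d : Fin 2) (w : Fin k → Fin 2) : Fin (k + 1) → Fin 2 :=
  Fin.cons (α := fun _ => Fin 2) d w

lemma consW_zero (k : ℕ) (d : Fin 2) (w : Fin k → Fin 2) : consW k d w 0 = d := rfl

lemma consW_succ (k : ℕ) (d : Fin 2) (w : Fin k → Fin 2) (j : Fin k) :
    consW k d w j.succ = w j := rfl

lemma consW_injective (k : ℕ) (d : Fin 2) : Function.Injective (consW k d) := by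
  intro w w' h
  funext j
  have := congrFun h j.succ
  exact this

lemma cons_image_subset (hβ : 1 < β) (y : ℝ) (k : ℕ) (d : Fin 2) :
    consW k d '' (prefixSet β (β * y - ((d : ℕ) : ℝ)) k) ⊆ prefixSet β y (k + 1) := by
  rintro _ ⟨w, ⟨ε, hε, hw⟩, rfl⟩
  refine ⟨consSeq d ε, cons_mem hβ d hε, ?_⟩
  intro i
  refine Fin.cases ?_ (fun j => ?_) i
  · rfl
  · rw [consW_succ, ← hw j]
    rfl

lemma prefixCount_succ_ge (hβ : 1 < β) (y : ℝ) (k : ℕ) (d : Fin 2) :
    prefixCount β (β * y - ((d : ℕ) : ℝ)) k ≤ prefixCount β y (k + 1) := by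
  unfold prefixCount
  rw [← Set.ncard_image_of_injective _ (consW_injective k d)]
  exact Set.ncard_le_ncard (cons_image_subset hβ y k d) (prefixSet_finite _ _)

lemma prefixCount_succ_ge_add (hβ : 1 < β) (y : ℝ) (k : ℕ) :
    prefixCount β (β * y) k + prefixCount β (β * y - 1) k ≤ prefixCount β y (k + 1) := by
  have h0 := cons_image_subset hβ y k 0
  have h1 := cons_image_subset hβ y k 1
  simp only [Fin.val_zero, Nat.cast_zero, sub_zero] at h0
  simp only [Fin.val_one, Nat.cast_one] at h1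
  unfold prefixCount
  rw [← Set.ncard_image_of_injective (prefixSet β (β * y) k) (consW_injective k 0)]
  rw [← Set.ncard_image_of_injective (prefixSet β (β * y - 1) k) (consW_injective k 1)]
  rw [← Set.ncard_union_eq ?_ (Set.toFinite _) (Set.toFinite _)]
  · exact Set.ncard_le_ncard (Set.union_subset h0 h1) (prefixSet_finite _ _)
  · rw [Set.disjoint_left]
    rintro _ ⟨w, -, rfl⟩ ⟨w', -, h⟩
    have := congrFun h 0
    rw [consW_zero, consW_zero] at this
    simp at this

lemma prefixCount_mono_succ (y : ℝ) (k : ℕ) :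
    prefixCount β y k ≤ prefixCount β y (k + 1) := by
  unfold prefixCount
  have : prefixSet β y k ⊆
      (fun w : Fin (k + 1) → Fin 2 => fun i : Fin k => w i.castSucc) '' prefixSet β y (k + 1) := by
    rintro w ⟨ε, hε, hw⟩
    refine ⟨fun i => ε i, ⟨ε, hε, fun i => rfl⟩, ?_⟩
    funext i
    exact hw i
  exact (Set.ncard_le_ncard this (Set.toFinite _)).trans (Set.ncard_image_le (Set.toFinite _))

lemma prefixCount_mono (y : ℝ) : Monotone (prefixCount β y) :=
  monotone_nat_of_le_succ (prefixCount_mono_succ y)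

lemma prefixCount_pos (hβ : 1 < β) (hβ2 : β ≤ 2) {y : ℝ} (h0 : 0 ≤ y) (h1 : y ≤ 1 / (β - 1))
    (k : ℕ) : 1 ≤ prefixCount β y k := by
  obtain ⟨ε, hε⟩ := exists_expansion hβ hβ2 h0 h1
  unfold prefixCount
  exact (Set.ncard_pos (Set.toFinite _)).2 ⟨fun i => ε i, ε, hε, fun i => rfl⟩

lemma prefixCount_le (y : ℝ) (k : ℕ) : prefixCount β y k ≤ 2 ^ k := by
  unfold prefixCount
  have := Set.ncard_le_ncard (Set.subset_univ (prefixSet β y k)) (Set.toFinite _)
  rw [Set.ncard_univ] at this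
  simpa using this

end Pool.Agent.MP_523de7_an
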