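import Mathlib

/-!
Certificate tables for MP_523de7_an and their checks.

A class is a pair `(kd, i)`: `kd = 0, 1, 2` first, second, third block `00110101` of a phase,
`kd = 3` the later blocks except the last one, `kd = 4` the last block, `kd = 5` the word `11101`;
`i` is the position inside the block.
-/

namespace Pool.Agent.MP_523de7_an

/-- coordinates in the basis `1, β, β², β³, β⁴` -/
abbrev V5 : Type := ℤ × ℤ × ℤ × ℤ × ℤ

/-- `d ↦ β d + t` when `β⁵ = β⁴ + β³ + β² + 1`. -/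
def stepV (d : V5) (t : ℤ) : V5 :=
  (d.2.2.2.2 + t, d.1, d.2.1 + d.2.2.2.2, d.2.2.1 + d.2.2.2.2, d.2.2.2.1 + d.2.2.2.2)

/-- digits of the classes -/
def digT : List (List (Fin 2)) := [
    [0, 0, 1, 1, 0, 1, 0, 1],
    [0, 0, 1, 1, 0, 1, 0, 1],
    [0, 0, 1, 1, 0, 1, 0, 1],
    [0, 0, 1, 1, 0, 1, 0, 1],
    [0, 0, 1, 1, 0, 1, 0, 1],
    [1, 1, 1, 0, 1]]

/-- lower bounds (times 10^6) of the tails of the spine -/
def lbT : List (List ℤ) := [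
    [256895, 485153, 916222, 730305, 379197, 716123, 352415, 665544],
    [256895, 485153, 916222, 730305, 379197, 716123, 352415, 665544],
    [256895, 485153, 916222, 730305, 379197, 716123, 352415, 665544],
    [256895, 485153, 916222, 730305, 379197, 716123, 352415, 665544],
    [261554, 493951, 932838, 761685, 438458, 828039, 563769, 1064691],
    [1010692, 908713, 716123, 352415, 665544]]

/-- upper bounds (times 10^6) of the tails of the spine -/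
def ubT : List (List ℤ) := [
    [256900, 485158, 916227, 730310, 379202, 716128, 352420, 665549],
    [256900, 485158, 916227, 730310, 379202, 716128, 352420, 665549],
    [256900, 485158, 916228, 730311, 379205, 716133, 352428, 665564],
    [256928, 485212, 916330, 730504, 379569, 716820, 353726, 668016],
    [261559, 493956, 932843, 761690, 438463, 828044, 563774, 1064696],
    [1010697, 908718, 716128, 352420, 665549]]

/-- nodes reached right after leaving the spine -/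
def pT : List (List (List V5)) := [
    [[(0, -2, 1, 0, 0), (1, -2, 1, 0, 0)], [(-1, 1, -2, 1, 0), (0, 0, -2, 1, 0)], [(-1, -1, 1, -2, 1), (0, 0, 0, -2, 1)], [(1, -1, 0, 2, -1), (2, 0, 1, 1, -1)], [(-1, 1, -2, -1, 1), (0, 1, -2, -1, 1), (0, 2, -1, 0, 0)], [(-1, 0, 2, -1, 0), (0, 0, 2, -1, 0), (1, -1, 2, -1, 0)], [(0, 0, 0, 2, -1), (1, -1, 0, 2, -1), (1, 1, -1, 2, -1)], [(-2, 0, -1, -1, 1), (-1, 1, -2, -1, 1), (-1, 1, 0, -2, 1)]],
    [[(1, -2, 1, 0, 0), (1, -1, 2, 1, -1), (2, -1, 2, -1, 0)], [(-1, 1, -2, 1, 0), (-1, 2, -1, 2, -1)], [(-1, -1, 1, -2, 1)], [(1, -1, 0, 2, -1)], [(-1, 1, -2, -1, 1), (0, 1, -2, -1, 1)], [(0, 0, 2, -1, 0), (1, -1, 2, -1, 0)], [(0, 0, 0, 2, -1), (1, 1, -1, 2, -1)], [(-2, 0, -1, -1, 1), (-1, 1, 0, -2, 1)]],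
    [[(1, -2, 1, 0, 0), (1, -1, 2, 1, -1)], [(-1, 1, -2, 1, 0)], [(-1, -1, 1, -2, 1)], [(1, -1, 0, 2, -1)], [(-1, 1, -2, -1, 1), (0, 1, -2, -1, 1)], [(0, 0, 2, -1, 0), (1, -1, 2, -1, 0)], [(0, 0, 0, 2, -1), (1, 1, -1, 2, -1)], [(-2, 0, -1, -1, 1), (-1, 1, 0, -2, 1)]],
    [[], [], [], [], [], [], [], []],
    [[], [], [], [], [], [], [], [(-1, 0, 0, 0, 0)]],
    [[(1, -1, 0, 0, 0)], [(1, 1, -1, 0, 0)], [(1, 1, 1, -1, 0)], [(1, 1, 1, 1, -1)], [(-2, 1, 0, 0, 0)]]]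

/-- nodes of the branching phase -/
def eT : List (List (List V5)) := [
    [[(2, -3, 3, -1, 0)], [(-1, 2, -3, 3, -1), (0, 2, -3, 3, -1)], [(-2, 0, 1, -4, 2), (-1, -1, 1, -4, 2)], [(2, -2, 2, 3, -2), (3, -1, 1, 3, -2)], [(-2, 2, -4, 0, 1), (-1, 3, -3, -1, 1)], [(0, -2, 3, -3, 1), (1, -1, 4, -2, 0)], [(0, 1, -1, 4, -2), (2, 0, -1, 4, -2)], [(-2, 0, -1, -3, 2), (-2, 2, -2, -3, 2)]],
    [[(2, -2, 4, 0, -1), (3, -2, 2, 1, -1), (3, -2, 4, 0, -1)], [(-2, 3, -3, 1, 0), (-2, 3, -3, 3, -1), (-1, 2, -3, 3, -1)], [(-2, -2, 2, -4, 2), (-1, -1, 1, -4, 2), (0, -2, 3, -3, 1)], [(2, -2, 0, 4, -2), (2, 0, -1, 4, -2), (3, -1, 1, 3, -2)], [(-2, 2, -2, -3, 2), (-1, 2, -4, -2, 2), (-1, 3, -3, -1, 1)], [(1, -1, 4, -2, 0), (2, -2, 4, 0, -1)], [(0, 1, -1, 4, -2), (0, 2, -3, 3, -1)], [(-2, 0, -1, -3, 2), (-2, 0, 1, -4, 2)]],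
    [[(2, -2, 2, 3, -2), (3, -2, 2, 1, -1)], [(-2, 2, -4, 0, 1), (-2, 3, -3, 1, 0)], [(0, -2, 3, -3, 1)], [(2, 0, -1, 4, -2)], [(-2, 2, -2, -3, 2)], [(2, -2, 4, 0, -1)], [(0, 2, -3, 3, -1)], [(-2, 0, 1, -4, 2)]],
    [[(1, -2, 1, 0, 0), (1, -1, 2, 1, -1)], [(-1, 1, -2, 1, 0)], [(-1, -1, 1, -2, 1)], [(1, -1, 0, 2, -1)], [(-1, 1, -2, -1, 1), (0, 1, -2, -1, 1)], [(0, 0, 2, -1, 0), (1, -1, 2, -1, 0)], [(0, 0, 0, 2, -1), (1, 1, -1, 2, -1)], [(-2, 0, -1, -1, 1), (-1, 1, 0, -2, 1)]],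
    [[(1, -2, 1, 0, 0), (1, -1, 2, 1, -1)], [(-1, 1, -2, 1, 0)], [(-1, -1, 1, -2, 1)], [(1, -1, 0, 2, -1)], [(-1, 1, -2, -1, 1)], [(1, -1, 2, -1, 0)], [(1, 1, -1, 2, -1)], [(-2, 1, 0, -2, 1)]],
    [[(2, -2, 2, 1, -1)], [(0, 2, -3, 1, 0)], [(0, 0, 2, -3, 1)], [(2, 0, 1, 3, -2)], [(-3, 2, -2, -1, 1)]]]

/-- nodes of the final, non-branching regime -/
def wT : List (List (List V5)) := [
    [[(3, -2, 2, 1, -1)], [(-2, 3, -3, 1, 0)], [(0, -2, 3, -3, 1)], [(2, 0, -1, 4, -2)], [(-2, 2, -2, -3, 2)], [(2, -2, 4, 0, -1)], [(0, 2, -3, 3, -1)], [(-2, 0, 1, -4, 2)]],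
    [[(2, -2, 2, 3, -2)], [(-2, 2, -4, 0, 1)], [(0, -2, 3, -3, 1)], [(2, 0, -1, 4, -2)], [(-2, 2, -2, -3, 2)], [(2, -2, 4, 0, -1)], [(0, 2, -3, 3, -1)], [(-2, 0, 1, -4, 2)]],
    [[(2, -2, 2, 3, -2)], [(-2, 2, -4, 0, 1)], [(0, -2, 3, -3, 1)], [(2, 0, -1, 4, -2)], [(-2, 2, -2, -3, 2)], [(2, -2, 4, 0, -1)], [(0, 2, -3, 3, -1)], [(-2, 0, 1, -4, 2)]],
    [[(2, -2, 2, 3, -2)], [(-2, 2, -4, 0, 1)], [(0, -2, 3, -3, 1)], [(2, 0, -1, 4, -2)], [(-2, 2, -2, -3, 2)], [(2, -2, 4, 0, -1)], [(0, 2, -3, 3, -1)], [(-2, 0, 1, -4, 2)]],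
    [[(2, -2, 2, 3, -2)], [(-2, 2, -4, 0, 1)], [(0, -2, 3, -3, 1)], [(2, 0, -1, 4, -2)], [(-2, 2, -2, -3, 2)], [(2, -2, 4, 0, -1)], [(-1, 2, -3, 3, -1)], [(-1, -1, 1, -4, 2)]],
    [[(3, -1, 1, 3, -2)], [(-1, 3, -3, -1, 1)], [(1, -1, 4, -2, 0)], [(0, 1, -1, 4, -2)], [(-2, 0, -1, -3, 2)]]]

/-- digit of a class -/
def dg (kd i : ℕ) : Fin 2 := (digT.getD kd []).getD i 0

/-- digit of a class, as an integer -/
def dz (kd i : ℕ) : ℤ := ((dg kd i : ℕ) : ℤ)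

/-- lower bound -/
def lb (kd i : ℕ) : ℤ := (lbT.getD kd []).getD i 0

/-- upper bound -/
def ub (kd i : ℕ) : ℤ := (ubT.getD kd []).getD i 0

/-- nodes reached right after leaving the spine -/
def pN (kd i : ℕ) : List V5 := (pT.getD kd []).getD i []

/-- nodes of the branching phase -/
def eN (kd i : ℕ) : List V5 := (eT.getD kd []).getD i []

/-- nodes of the final regime -/
def wN (kd i : ℕ) : List V5 := (wT.getD kd []).getD i []

/-- possible successor classes -/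
def nxt (kd i : ℕ) : List (ℕ × ℕ) :=
  if kd = 5 then (if i < 4 then [(5, i + 1)] else if i = 4 then [(0, 0)] else [])
  else if i < 7 then [(kd, i + 1)]
  else if kd = 3 then [(3, 0), (4, 0)] else [(kd + 1, 0)]

/-- bound for a coefficient times a power of `β`, from above (times 10^6) -/
def cU (c l u : ℤ) : ℤ := if 0 ≤ c then c * u else c * l

/-- upper bound for the value (times 10^6) -/
def vU (d : V5) : ℤ :=
  d.1 * 1000000 + cU d.2.1 1888518 1888519 + cU d.2.2.1 3566503 3566504 +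
    cU d.2.2.2.1 6735408 6735409 + cU d.2.2.2.2 12719946 12719947

/-- lower bound for the value (times 10^6) -/
def vL (d : V5) : ℤ :=
  d.1 * 1000000 + cU d.2.1 1888519 1888518 + cU d.2.2.1 3566504 3566503 +
    cU d.2.2.2.1 6735409 6735408 + cU d.2.2.2.2 12719947 12719946

/-- the point (spine + `d`) is outside of `[0, 1/(β-1)]` -/
def outside (kd i : ℕ) (d : V5) : Prop := ub kd i + vU d < 0 ∨ 1125469 < lb kd i + vL d

instance (kd i : ℕ) (d : V5) : Decidable (outside kd i d) := by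
  unfold outside; infer_instance

lemma check_lb : ∀ kd < 6, ∀ i < 8, ∀ c ∈ nxt kd i,
    0 ≤ lb kd i ∧ lb kd i * 1888518846 ≤ (dz kd i * 1000000 + lb c.1 c.2) * 1000000000 := by
  decide +kernel

lemma check_ub : ∀ kd < 6, ∀ i < 8, ∀ c ∈ nxt kd i,
    0 ≤ ub kd i ∧ (dz kd i * 1000000 + ub c.1 c.2) * 1000000000 ≤ ub kd i * 1888518845 := by
  decide +kernel

/-- check at a spine node -/
def okS (kd i : ℕ) (c : ℕ × ℕ) (e : Fin 2) : Bool :=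
  decide (e = dg kd i) ||
  decide (outside c.1 c.2 (stepV (0, 0, 0, 0, 0) (dz kd i - ((e : ℕ) : ℤ)))) ||
  decide (stepV (0, 0, 0, 0, 0) (dz kd i - ((e : ℕ) : ℤ)) ∈ pN c.1 c.2)

/-- check at a node `d` with two tables of successors -/
def okN (A B : ℕ → ℕ → List V5) (kd i : ℕ) (d : V5) (c : ℕ × ℕ) (e : Fin 2) : Bool :=
  decide (outside c.1 c.2 (stepV d (dz kd i - ((e : ℕ) : ℤ)))) ||
  (if kd = 2 ∧ i = 7 then decide (stepV d (dz kd i - ((e : ℕ) : ℤ)) ∈ A c.1 c.2)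
    else decide (stepV d (dz kd i - ((e : ℕ) : ℤ)) ∈ B c.1 c.2))

lemma check_spine' : ∀ kd < 6, ∀ i < 8, ∀ c ∈ nxt kd i, ∀ e : Fin 2, okS kd i c e = true := by
  decide +kernel

lemma check_p' : ∀ kd < 6, ∀ i < 8, ∀ d ∈ pN kd i, ∀ c ∈ nxt kd i, ∀ e : Fin 2,
    okN eN pN kd i d c e = true := by
  decide +kernel

lemma check_e' : ∀ kd < 6, ∀ i < 8, ∀ d ∈ eN kd i, ∀ c ∈ nxt kd i, ∀ e : Fin 2,
    okN wN eN kd i d c e = true := by
  decide +kernel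

lemma okN_iff {A B : ℕ → ℕ → List V5} {kd i : ℕ} {d : V5} {c : ℕ × ℕ} {e : Fin 2}
    (h : okN A B kd i d c e = true)
    (ho : ¬ outside c.1 c.2 (stepV d (dz kd i - ((e : ℕ) : ℤ)))) :
    (kd = 2 ∧ i = 7 → stepV d (dz kd i - ((e : ℕ) : ℤ)) ∈ A c.1 c.2) ∧
    (¬ (kd = 2 ∧ i = 7) → stepV d (dz kd i - ((e : ℕ) : ℤ)) ∈ B c.1 c.2) := by
  unfold okN at h
  rw [Bool.or_eq_true, decide_eq_true_eq] at h
  rcases h with h | h
  · exact absurd h ho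
  · constructor
    · intro hk
      rw [if_pos hk, decide_eq_true_eq] at h
      exact h
    · intro hk
      rw [if_neg hk, decide_eq_true_eq] at h
      exact h

/-- the spine: a wrong digit is only possible at class `(4, 6)` -/
lemma check_spine : ∀ kd < 6, ∀ i < 8, ∀ c ∈ nxt kd i, ∀ e : Fin 2, e ≠ dg kd i →
    ¬ outside c.1 c.2 (stepV (0, 0, 0, 0, 0) (dz kd i - ((e : ℕ) : ℤ))) →
    stepV (0, 0, 0, 0, 0) (dz kd i - ((e : ℕ) : ℤ)) ∈ pN c.1 c.2 := by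
  intro kd hkd i hi c hc e he ho
  have h := check_spine' kd hkd i hi c hc e
  unfold okS at h
  rw [Bool.or_eq_true, Bool.or_eq_true, decide_eq_true_eq, decide_eq_true_eq,
    decide_eq_true_eq] at h
  rcases h with (h | h) | h
  · exact absurd h he
  · exact absurd h ho
  · exact h

lemma check_w : ∀ kd < 6, ∀ i < 8, ∀ d ∈ wN kd i, ∀ c ∈ nxt kd i, ∀ e : Fin 2,
    outside c.1 c.2 (stepV d (dz kd i - ((e : ℕ) : ℤ))) ∨
      stepV d (dz kd i - ((e : ℕ) : ℤ)) ∈ wN c.1 c.2 := by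
  decide +kernel

lemma check_w_unique : ∀ kd < 6, ∀ i < 8, ∀ d ∈ wN kd i, ∀ c ∈ nxt kd i,
    outside c.1 c.2 (stepV d (dz kd i - 0)) ∨ outside c.1 c.2 (stepV d (dz kd i - 1)) := by
  decide +kernel

end Pool.Agent.MP_523de7_an
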