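import Mathlib
import Pool.Agent.Lib.MP_523de7_an.Basic
import Pool.Agent.Lib.MP_523de7_an.Cert

/-!
The digit sequence of the counterexample, and the analysis of all its competitors,
for MP_523de7_an.
-/

open Filter Topology

noncomputable section

namespace Pool.Agent.MP_523de7_an

/-- State of the machine that writes the sequence: class `(kd, i)`, number `m` of blocks of kind
`3` still to be written in this phase, and number `j` of the phase. -/
structure St where
  kd : ℕ
  i : ℕ
  m : ℕ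
  j : ℕ

/-- one step of the machine -/
def nextSt (s : St) : St :=
  if s.kd = 5 then (if s.i < 4 then ⟨5, s.i + 1, s.m, s.j⟩ else ⟨0, 0, 2 ^ (s.j + 1), s.j + 1⟩)
  else if s.i < 7 then ⟨s.kd, s.i + 1, s.m, s.j⟩
  else if s.kd = 3 ∧ 1 < s.m then ⟨3, 0, s.m - 1, s.j⟩
  else ⟨s.kd + 1, 0, s.m, s.j⟩

/-- the run of the machine -/
def st : ℕ → St
  | 0 => ⟨0, 0, 1, 0⟩
  | n + 1 => nextSt (st n)

lemma st_wf (n : ℕ) : (st n).kd < 6 ∧ (st n).i < 8 ∧ ((st n).kd = 5 → (st n).i ≤ 4) := by
  induction n with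
  | zero => simp [st]
  | succ n ih =>
    obtain ⟨h1, h2, h3⟩ := ih
    simp only [st, nextSt]
    split_ifs with a b c d
    · exact ⟨by simp, by simp only; omega, fun _ => by simp only; omega⟩
    · exact ⟨by simp, by simp, fun h => by simp at h⟩
    · exact ⟨by simpa using h1, by simp only; omega, fun h => absurd h a⟩
    · exact ⟨by simp, by simp, fun h => by simp at h⟩
    · refine ⟨by simp only; omega, by simp, fun _ => by simp⟩

lemma st_next (n : ℕ) :
    ((st (n + 1)).kd, (st (n + 1)).i) ∈ nxt (st n).kd (st n).i := by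
  obtain ⟨h1, h2, h3⟩ := st_wf n
  have e : st (n + 1) = nextSt (st n) := rfl
  rw [e]
  unfold nextSt nxt
  by_cases a : (st n).kd = 5
  · rw [if_pos a, if_pos a]
    by_cases b : (st n).i < 4
    · rw [if_pos b, if_pos b]; simp
    · have b' : (st n).i = 4 := by
        have := h3 a; omega
      rw [if_neg b, if_neg b, if_pos b']; simp
  · rw [if_neg a, if_neg a]
    by_cases b : (st n).i < 7
    · rw [if_pos b, if_pos b]; simp
    · rw [if_neg b, if_neg b]
      by_cases c : (st n).kd = 3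
      · rw [if_pos c]
        by_cases d : 1 < (st n).m
        · rw [if_pos ⟨c, d⟩]; simp
        · rw [if_neg (fun h => d h.2)]; simp [c]
      · rw [if_neg c, if_neg (fun h => c h.1)]; simp

/-- the digits of the spine -/
def aD (n : ℕ) : Fin 2 := dg (st n).kd (st n).i

lemma aD_int (n : ℕ) : (((aD n : ℕ) : ℤ)) = dz (st n).kd (st n).i := rfl

/-- value of a coordinate vector -/
def val (β : ℝ) (d : V5) : ℝ :=
  d.1 + d.2.1 * β + d.2.2.1 * β ^ 2 + d.2.2.2.1 * β ^ 3 + d.2.2.2.2 * β ^ 4

/-- The hypotheses on `β`. -/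
structure Good (β : ℝ) : Prop where
  lo : 1.888518845 ≤ β
  hi : β ≤ 1.888518846
  eq : β ^ 5 = β ^ 4 + β ^ 3 + β ^ 2 + 1

lemma exists_good : ∃ β, Good β := by
  have hc : ContinuousOn (fun x : ℝ => x ^ 5 - x ^ 4 - x ^ 3 - x ^ 2 - 1)
      (Set.Icc 1.888518845 1.888518846) := by fun_prop
  have h := intermediate_value_Icc (by norm_num : (1.888518845 : ℝ) ≤ 1.888518846) hc
  have h0 : (0 : ℝ) ∈ Set.Icc ((1.888518845 : ℝ) ^ 5 - 1.888518845 ^ 4 - 1.888518845 ^ 3
      - 1.888518845 ^ 2 - 1) ((1.888518846 : ℝ) ^ 5 - 1.888518846 ^ 4 - 1.888518846 ^ 3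
      - 1.888518846 ^ 2 - 1) := by
    constructor <;> norm_num
  obtain ⟨β, hβ, hβ2⟩ := h h0
  refine ⟨β, hβ.1, hβ.2, ?_⟩
  simp only at hβ2
  linarith

variable {β : ℝ}

lemma val_step (hg : Good β) (d : V5) (t : ℤ) : val β (stepV d t) = β * val β d + t := by
  unfold val stepV
  push_cast
  linear_combination (-(d.2.2.2.2 : ℝ)) * hg.eq

set_option linter.unusedSectionVars false

namespace Good

variable (hg : Good β)
include hg

lemma one_lt : 1 < β := by have := hg.lo; norm_num at this; linarith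

lemma le_two : β ≤ 2 := by have := hg.hi; norm_num at this; linarith

lemma pow2 : 3.566503 ≤ β ^ 2 ∧ β ^ 2 ≤ 3.566504 := by
  have h1 := hg.lo
  have h2 := hg.hi
  have h0 : 0 ≤ β := by linarith [hg.one_lt]
  constructor
  · calc (3.566503 : ℝ) ≤ 1.888518845 ^ 2 := by norm_num
      _ ≤ β ^ 2 := by gcongr
  · calc β ^ 2 ≤ 1.888518846 ^ 2 := by gcongr
      _ ≤ (3.566504 : ℝ) := by norm_num

lemma pow3 : 6.735408 ≤ β ^ 3 ∧ β ^ 3 ≤ 6.735409 := by
  have h1 := hg.lo
  have h2 := hg.hi
  have h0 : 0 ≤ β := by linarith [hg.one_lt]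
  constructor
  · calc (6.735408 : ℝ) ≤ 1.888518845 ^ 3 := by norm_num
      _ ≤ β ^ 3 := by gcongr
  · calc β ^ 3 ≤ 1.888518846 ^ 3 := by gcongr
      _ ≤ (6.735409 : ℝ) := by norm_num

lemma pow4 : 12.719946 ≤ β ^ 4 ∧ β ^ 4 ≤ 12.719947 := by
  have h1 := hg.lo
  have h2 := hg.hi
  have h0 : 0 ≤ β := by linarith [hg.one_lt]
  constructor
  · calc (12.719946 : ℝ) ≤ 1.888518845 ^ 4 := by norm_num
      _ ≤ β ^ 4 := by gcongr
  · calc β ^ 4 ≤ 1.888518846 ^ 4 := by gcongr
      _ ≤ (12.719947 : ℝ) := by norm_num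

lemma top : 1 / (β - 1) ≤ 1125469 / 1000000 := by
  have h1 := hg.lo
  have h0 := hg.one_lt
  rw [div_le_iff₀ (by linarith)]
  norm_num at h1 ⊢
  linarith

lemma cU_ge (c l u : ℤ) {x : ℝ} (hl : (l : ℝ) ≤ x) (hu : x ≤ u) : c * x ≤ cU c l u := by
  unfold cU
  split_ifs with h
  · have h' : (0 : ℝ) ≤ c := by exact_mod_cast h
    push_cast
    gcongr
  · push Not at h
    have h' : (c : ℝ) ≤ 0 := by exact_mod_cast h.le
    push_cast
    nlinarith

lemma cU_le (c l u : ℤ) {x : ℝ} (hl : (l : ℝ) ≤ x) (hu : x ≤ u) : (cU c u l : ℝ) ≤ c * x := by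
  unfold cU
  split_ifs with h
  · have h' : (0 : ℝ) ≤ c := by exact_mod_cast h
    push_cast
    gcongr
  · push Not at h
    have h' : (c : ℝ) ≤ 0 := by exact_mod_cast h.le
    push_cast
    nlinarith

lemma val_le (d : V5) : 1000000 * val β d ≤ vU d := by
  have h1 := hg.lo
  have h2 := hg.hi
  have p2 := hg.pow2
  have p3 := hg.pow3
  have p4 := hg.pow4
  norm_num at h1 h2 p2 p3 p4
  have e1 := hg.cU_ge d.2.1 1888518 1888519 (x := 1000000 * β)
    (by push_cast; linarith) (by push_cast; linarith)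
  have e2 := hg.cU_ge d.2.2.1 3566503 3566504 (x := 1000000 * β ^ 2)
    (by push_cast; linarith [p2.1]) (by push_cast; linarith [p2.2])
  have e3 := hg.cU_ge d.2.2.2.1 6735408 6735409 (x := 1000000 * β ^ 3)
    (by push_cast; linarith [p3.1]) (by push_cast; linarith [p3.2])
  have e4 := hg.cU_ge d.2.2.2.2 12719946 12719947 (x := 1000000 * β ^ 4)
    (by push_cast; linarith [p4.1]) (by push_cast; linarith [p4.2])
  unfold vU val
  push_cast
  linarith

lemma le_val (d : V5) : (vL d : ℝ) ≤ 1000000 * val β d := by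
  have h1 := hg.lo
  have h2 := hg.hi
  have p2 := hg.pow2
  have p3 := hg.pow3
  have p4 := hg.pow4
  norm_num at h1 h2 p2 p3 p4
  have e1 := hg.cU_le d.2.1 1888518 1888519 (x := 1000000 * β)
    (by push_cast; linarith) (by push_cast; linarith)
  have e2 := hg.cU_le d.2.2.1 3566503 3566504 (x := 1000000 * β ^ 2)
    (by push_cast; linarith [p2.1]) (by push_cast; linarith [p2.2])
  have e3 := hg.cU_le d.2.2.2.1 6735408 6735409 (x := 1000000 * β ^ 3)
    (by push_cast; linarith [p3.1]) (by push_cast; linarith [p3.2])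
  have e4 := hg.cU_le d.2.2.2.2 12719946 12719947 (x := 1000000 * β ^ 4)
    (by push_cast; linarith [p4.1]) (by push_cast; linarith [p4.2])
  unfold vL val
  push_cast
  linarith

/-- a contraction principle -/
lemma nonpos_of_contract {g : ℕ → ℝ} {C : ℝ} (hC : ∀ n, g n ≤ C)
    (h : ∀ n, β * g n ≤ g (n + 1)) (n : ℕ) : g n ≤ 0 := by
  have hb := hg.one_lt
  have hpow : ∀ k, β ^ k * g n ≤ g (n + k) := by
    intro k
    induction k with
    | zero => simp
    | succ k ih =>
      have h1 := h (n + k)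
      have h2 : β * (β ^ k * g n) ≤ β * g (n + k) := by gcongr
      calc β ^ (k + 1) * g n = β * (β ^ k * g n) := by rw [pow_succ]; ring
        _ ≤ β * g (n + k) := h2
        _ ≤ g (n + (k + 1)) := h1
  by_contra hpos
  push Not at hpos
  obtain ⟨k, hk⟩ := pow_unbounded_of_one_lt (C / g n) hb
  have h1 := hpow k
  have h2 := hC (n + k)
  rw [div_lt_iff₀ hpos] at hk
  linarith

/-- bounds for the tails of the spine -/
lemma spine_bounds (n : ℕ) : (lb (st n).kd (st n).i : ℝ) ≤ 1000000 * tl β aD n ∧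
    1000000 * tl β aD n ≤ ub (st n).kd (st n).i := by
  have hb := hg.one_lt
  have h1 := hg.lo
  have h2 := hg.hi
  have ht := hg.top
  norm_num at h1 h2
  have hd : ∀ n, ((aD n : ℕ) : ℝ) = ((dz (st n).kd (st n).i : ℤ) : ℝ) := by
    intro n
    rw [← aD_int]
    push_cast
    rfl
  constructor
  · have := hg.nonpos_of_contract
      (g := fun n => (lb (st n).kd (st n).i : ℝ) - 1000000 * tl β aD n) (C := 10000000)
      (fun n => ?_) (fun n => ?_) n
    · linarith
    · -- bounded
      have hw := st_wf n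
      have hc := check_lb _ hw.1 _ hw.2.1 _ (st_next n)
      have h5 := tl_nonneg hb aD n
      have h6 : ((lb (st n).kd (st n).i : ℤ) : ℝ) ≤ 10000000 := by
        have : ∀ kd < 6, ∀ i < 8, lb kd i ≤ 10000000 := by decide +kernel
        exact_mod_cast this _ hw.1 _ hw.2.1
      linarith
    · have hw := st_wf n
      obtain ⟨c0, c1⟩ := check_lb _ hw.1 _ hw.2.1 _ (st_next n)
      have c0' : (0 : ℝ) ≤ (lb (st n).kd (st n).i : ℝ) := by exact_mod_cast c0
      have c1' : ((lb (st n).kd (st n).i : ℤ) : ℝ) * 1888518846 ≤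
          ((dz (st n).kd (st n).i : ℤ) * 1000000 +
            (lb (st (n + 1)).kd (st (n + 1)).i : ℤ) : ℝ) * 1000000000 := by
        exact_mod_cast c1
      rw [tl_succ hb, hd]
      have h7 : ((lb (st n).kd (st n).i : ℤ) : ℝ) * β ≤
          ((lb (st n).kd (st n).i : ℤ) : ℝ) * (1888518846 / 1000000000) := by
        apply mul_le_mul_of_nonneg_left _ c0'
        linarith
      linarith
  · have := hg.nonpos_of_contract
      (g := fun n => 1000000 * tl β aD n - (ub (st n).kd (st n).i : ℝ)) (C := 10000000)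
      (fun n => ?_) (fun n => ?_) n
    · linarith
    · have hw := st_wf n
      obtain ⟨c0, c1⟩ := check_ub _ hw.1 _ hw.2.1 _ (st_next n)
      have c0' : (0 : ℝ) ≤ (ub (st n).kd (st n).i : ℝ) := by exact_mod_cast c0
      have h5 := tl_le hb aD n
      linarith
    · have hw := st_wf n
      obtain ⟨c0, c1⟩ := check_ub _ hw.1 _ hw.2.1 _ (st_next n)
      have c0' : (0 : ℝ) ≤ (ub (st n).kd (st n).i : ℝ) := by exact_mod_cast c0
      have c1' : ((dz (st n).kd (st n).i : ℤ) * 1000000 +
            (ub (st (n + 1)).kd (st (n + 1)).i : ℤ) : ℝ) * 1000000000 ≤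
          ((ub (st n).kd (st n).i : ℤ) : ℝ) * 1888518845 := by
        exact_mod_cast c1
      rw [tl_succ hb, hd]
      have h7 : ((ub (st n).kd (st n).i : ℤ) : ℝ) * (1888518845 / 1000000000) ≤
          ((ub (st n).kd (st n).i : ℤ) : ℝ) * β := by
        apply mul_le_mul_of_nonneg_left _ c0'
        linarith
      linarith

/-- A point of `[0, 1/(β-1)]` is not outside. -/
lemma not_outside {n : ℕ} {d : V5} (h0 : 0 ≤ tl β aD n + val β d)
    (h1 : tl β aD n + val β d ≤ 1 / (β - 1)) : ¬ outside (st n).kd (st n).i d := by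
  have hs := hg.spine_bounds n
  have hU := hg.val_le d
  have hL := hg.le_val d
  have ht := hg.top
  unfold outside
  push Not
  constructor
  · have : (0 : ℝ) ≤ (ub (st n).kd (st n).i : ℝ) + (vU d : ℝ) := by linarith [hs.2]
    exact_mod_cast this
  · have : (lb (st n).kd (st n).i : ℝ) + (vL d : ℝ) ≤ 1125469 := by linarith [hs.1]
    exact_mod_cast this

end Good

/-- the difference vector of a competitor -/
def dv (e : ℕ → Fin 2) : ℕ → V5
  | 0 => (0, 0, 0, 0, 0)
  | n + 1 => stepV (dv e n) (dz (st n).kd (st n).i - ((e n : ℕ) : ℤ))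

lemma dv_congr {e e' : ℕ → Fin 2} {n : ℕ} (h : ∀ k < n, e k = e' k) : dv e n = dv e' n := by
  induction n with
  | zero => rfl
  | succ n ih =>
    simp only [dv]
    rw [ih (fun k hk => h k (by omega)), h n (by omega)]

lemma tl_eq (hg : Good β) {e : ℕ → Fin 2} (he : bval β e = bval β aD) (n : ℕ) :
    tl β e n = tl β aD n + val β (dv e n) := by
  have hb := hg.one_lt
  induction n with
  | zero =>
    rw [tl_zero, tl_zero, he]
    simp [dv, val]
  | succ n ih =>
    rw [tl_succ hb, tl_succ hb, ih]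
    simp only [dv]
    rw [val_step hg]
    push_cast
    rw [← aD_int]
    push_cast
    ring

lemma alive (hg : Good β) {e : ℕ → Fin 2} (he : bval β e = bval β aD) (n : ℕ) :
    ¬ outside (st n).kd (st n).i (dv e n) := by
  have hb := hg.one_lt
  apply hg.not_outside
  · rw [← tl_eq hg he]; exact tl_nonneg hb e n
  · rw [← tl_eq hg he]; exact tl_le hb e n

end Pool.Agent.MP_523de7_an
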