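import Mathlib
import Pool.Agent.Lib.MP_523de7_an.Machine

/-!
Countability of the set of expansions, for MP_523de7_an.
-/

open Filter Topology

noncomputable section

namespace Pool.Agent.MP_523de7_an

/-- starting times of the phases -/
def T : ℕ → ℕ
  | 0 => 0
  | j + 1 => T j + 8 * 2 ^ j + 37

lemma st_add_block {n kd m j : ℕ} (hk : kd < 5) (h : st n = ⟨kd, 0, m, j⟩) :
    ∀ i < 8, st (n + i) = ⟨kd, i, m, j⟩ := by
  intro i
  induction i with
  | zero => intro _; exact h
  | succ i ih =>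
    intro hi
    have h1 := ih (by omega)
    have e : st (n + (i + 1)) = nextSt (st (n + i)) := rfl
    rw [e, h1]
    unfold nextSt
    simp only
    rw [if_neg (by omega), if_pos (by omega)]

lemma st_block_end {n kd m j : ℕ} (hk : kd < 5) (h : st n = ⟨kd, 0, m, j⟩) :
    st (n + 8) = if kd = 3 ∧ 1 < m then ⟨3, 0, m - 1, j⟩ else ⟨kd + 1, 0, m, j⟩ := by
  have h1 := st_add_block hk h 7 (by omega)
  have e : st (n + 8) = nextSt (st (n + 7)) := rfl
  rw [e, h1]
  unfold nextSt
  simp only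
  rw [if_neg (by omega), if_neg (by omega)]

lemma st_k3 {n j : ℕ} : ∀ (t : ℕ) (m : ℕ), t < m → st n = ⟨3, 0, m, j⟩ →
    st (n + 8 * t) = ⟨3, 0, m - t, j⟩ := by
  intro t
  induction t with
  | zero => intro m _ h; simpa using h
  | succ t ih =>
    intro m hm h
    have h1 := ih m (by omega) h
    have h2 := st_block_end (by omega) h1
    rw [if_pos ⟨rfl, by omega⟩] at h2
    have e : n + 8 * (t + 1) = n + 8 * t + 8 := by ring
    rw [e, h2]
    congr 1

lemma st_phase {j : ℕ} (h : st (T j) = ⟨0, 0, 2 ^ j, j⟩) :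
    st (T j + 8) = ⟨1, 0, 2 ^ j, j⟩ ∧ st (T j + 16) = ⟨2, 0, 2 ^ j, j⟩ ∧
    st (T j + 24) = ⟨3, 0, 2 ^ j, j⟩ ∧ st (T j + 24 + 8 * 2 ^ j) = ⟨4, 0, 1, j⟩ ∧
    st (T j + 32 + 8 * 2 ^ j) = ⟨5, 0, 1, j⟩ ∧ st (T (j + 1)) = ⟨0, 0, 2 ^ (j + 1), j + 1⟩ := by
  have hp : 0 < 2 ^ j := by positivity
  have h1 := st_block_end (by omega) h
  rw [if_neg (by omega)] at h1
  have h2 := st_block_end (by omega) h1
  rw [if_neg (by omega)] at h2
  have h3 := st_block_end (by omega) h2
  rw [if_neg (by omega)] at h3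
  have h3' : st (T j + 24) = ⟨3, 0, 2 ^ j, j⟩ := h3
  have h4 := st_k3 (2 ^ j - 1) (2 ^ j) (by omega) h3'
  have h5 := st_block_end (by omega) h4
  have e1 : 2 ^ j - (2 ^ j - 1) = 1 := by omega
  rw [e1] at h4 h5
  rw [if_neg (by omega)] at h5
  have e2 : T j + 24 + 8 * (2 ^ j - 1) + 8 = T j + 24 + 8 * 2 ^ j := by omega
  rw [e2] at h5
  have h6 := st_block_end (by omega) h5
  rw [if_neg (by omega)] at h6
  have e3 : T j + 24 + 8 * 2 ^ j + 8 = T j + 32 + 8 * 2 ^ j := by omega
  rw [e3] at h6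
  have h7 : st (T j + 32 + 8 * 2 ^ j + 5) = ⟨0, 0, 2 ^ (j + 1), j + 1⟩ := by
    have a1 : st (T j + 32 + 8 * 2 ^ j + 1) = nextSt (st (T j + 32 + 8 * 2 ^ j)) := rfl
    have a2 : st (T j + 32 + 8 * 2 ^ j + 2) = nextSt (st (T j + 32 + 8 * 2 ^ j + 1)) := rfl
    have a3 : st (T j + 32 + 8 * 2 ^ j + 3) = nextSt (st (T j + 32 + 8 * 2 ^ j + 2)) := rfl
    have a4 : st (T j + 32 + 8 * 2 ^ j + 4) = nextSt (st (T j + 32 + 8 * 2 ^ j + 3)) := rfl
    have a5 : st (T j + 32 + 8 * 2 ^ j + 5) = nextSt (st (T j + 32 + 8 * 2 ^ j + 4)) := rfl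
    rw [a5, a4, a3, a2, a1, h6]
    simp [nextSt]
  have e4 : T (j + 1) = T j + 32 + 8 * 2 ^ j + 5 := by
    simp only [T]; omega
  refine ⟨h1, h2, h3', h5, h6, ?_⟩
  rw [e4]; exact h7

lemma st_T (j : ℕ) : st (T j) = ⟨0, 0, 2 ^ j, j⟩ := by
  induction j with
  | zero => simp [T, st]
  | succ j ih => exact (st_phase ih).2.2.2.2.2

lemma T_ge (j : ℕ) : j ≤ T j := by
  induction j with
  | zero => simp
  | succ j ih => simp only [T]; omega

lemma exists_27 (n : ℕ) : ∃ m, n ≤ m ∧ (st m).kd = 2 ∧ (st m).i = 7 := by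
  refine ⟨T n + 16 + 7, ?_, ?_, ?_⟩
  · have := T_ge n; omega
  · rw [st_add_block (by omega) (st_phase (st_T n)).2.1 7 (by omega)]
  · rw [st_add_block (by omega) (st_phase (st_T n)).2.1 7 (by omega)]

variable {β : ℝ}

section Labels

variable (hg : Good β) {e : ℕ → Fin 2} (he : bval β e = bval β aD)
include hg he

lemma step_w {n : ℕ} (h : dv e n ∈ wN (st n).kd (st n).i) :
    dv e (n + 1) ∈ wN (st (n + 1)).kd (st (n + 1)).i := by
  have hw := st_wf n
  rcases check_w _ hw.1 _ hw.2.1 _ h _ (st_next n) (e n) with h1 | h1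
  · exact absurd h1 (alive hg he (n + 1))
  · exact h1

lemma step_e {n : ℕ} (h : dv e n ∈ eN (st n).kd (st n).i) :
    ((st n).kd = 2 ∧ (st n).i = 7 → dv e (n + 1) ∈ wN (st (n + 1)).kd (st (n + 1)).i) ∧
    (¬ ((st n).kd = 2 ∧ (st n).i = 7) → dv e (n + 1) ∈ eN (st (n + 1)).kd (st (n + 1)).i) := by
  have hw := st_wf n
  exact okN_iff (check_e' _ hw.1 _ hw.2.1 _ h _ (st_next n) (e n)) (alive hg he (n + 1))

lemma step_p {n : ℕ} (h : dv e n ∈ pN (st n).kd (st n).i) :
    ((st n).kd = 2 ∧ (st n).i = 7 → dv e (n + 1) ∈ eN (st (n + 1)).kd (st (n + 1)).i) ∧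
    (¬ ((st n).kd = 2 ∧ (st n).i = 7) → dv e (n + 1) ∈ pN (st (n + 1)).kd (st (n + 1)).i) := by
  have hw := st_wf n
  exact okN_iff (check_p' _ hw.1 _ hw.2.1 _ h _ (st_next n) (e n)) (alive hg he (n + 1))

end Labels

/-- If a property persists outside of a set of times met infinitely often, it holds at some time
of this set. -/
lemma exists_hit {A Z : ℕ → Prop} (hZ : ∀ n, ∃ m, n ≤ m ∧ Z m) {n : ℕ} (hn : A n)
    (hstep : ∀ m, A m → ¬ Z m → A (m + 1)) : ∃ m, n ≤ m ∧ A m ∧ Z m := by
  classical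
  by_contra hcon
  push Not at hcon
  have hall : ∀ k, A (n + k) := by
    intro k
    induction k with
    | zero => exact hn
    | succ k ih => exact hstep _ ih (hcon _ (Nat.le_add_right n k) ih)
  obtain ⟨m, hm, hz⟩ := hZ n
  obtain ⟨k, rfl⟩ := Nat.exists_eq_add_of_le hm
  exact hcon _ hm (hall k) hz

lemma eventually_w (hg : Good β) {e : ℕ → Fin 2} (he : bval β e = bval β aD) (hne : e ≠ aD) :
    ∃ n, dv e n ∈ wN (st n).kd (st n).i := by
  classical
  have hex : ∃ n, e n ≠ aD n := Function.ne_iff.1 hne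
  set n := Nat.find hex with hn
  have h1 : e n ≠ aD n := Nat.find_spec hex
  have h2 : ∀ k < n, e k = aD k := fun k hk => by
    have := Nat.find_min hex hk
    push Not at this
    exact this
  have hzero : dv e n = (0, 0, 0, 0, 0) := by
    rw [dv_congr h2]
    have : ∀ m, dv aD m = (0, 0, 0, 0, 0) := by
      intro m
      induction m with
      | zero => rfl
      | succ m ih =>
        simp only [dv]
        rw [ih, ← aD_int]
        simp [stepV]
    exact this n
  have hw := st_wf n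
  have hout := alive hg he (n + 1)
  have hstep : dv e (n + 1) = stepV (0, 0, 0, 0, 0) (dz (st n).kd (st n).i - ((e n : ℕ) : ℤ)) := by
    simp only [dv]
    rw [hzero]
  have hp : dv e (n + 1) ∈ pN (st (n + 1)).kd (st (n + 1)).i := by
    rw [hstep] at hout ⊢
    exact check_spine _ hw.1 _ hw.2.1 _ (st_next n) (e n) h1 hout
  obtain ⟨m, -, hm, hz⟩ := exists_hit
    (A := fun m => dv e m ∈ pN (st m).kd (st m).i)
    (Z := fun m => (st m).kd = 2 ∧ (st m).i = 7) exists_27 hp
    (fun m hA hZ => (step_p hg he hA).2 hZ)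
  have h3 := (step_p hg he hm).1 hz
  obtain ⟨m', -, hm', hz'⟩ := exists_hit
    (A := fun m => dv e m ∈ eN (st m).kd (st m).i)
    (Z := fun m => (st m).kd = 2 ∧ (st m).i = 7) exists_27 h3
    (fun m hA hZ => (step_e hg he hA).2 hZ)
  exact ⟨m' + 1, (step_e hg he hm').1 hz'⟩

lemma unique_w (hg : Good β) {e e' : ℕ → Fin 2} (he : bval β e = bval β aD)
    (he' : bval β e' = bval β aD) {n : ℕ} (h : dv e n ∈ wN (st n).kd (st n).i)
    (hag : ∀ k < n, e k = e' k) : e = e' := by
  have hw : ∀ k, dv e (n + k) ∈ wN (st (n + k)).kd (st (n + k)).i := by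
    intro k
    induction k with
    | zero => exact h
    | succ k ih => exact step_w hg he ih
  have hall : ∀ k, ∀ l < n + k, e l = e' l := by
    intro k
    induction k with
    | zero => exact hag
    | succ k ih =>
      intro l hl
      by_cases hl' : l < n + k
      · exact ih l hl'
      · have hlk : l = n + k := by omega
        subst hlk
        by_contra hne
        have hd : dv e (n + k) = dv e' (n + k) := dv_congr ih
        have a1 := alive hg he (n + k + 1)
        have a2 := alive hg he' (n + k + 1)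
        simp only [dv] at a1 a2
        rw [← hd] at a2
        have hwf := st_wf (n + k)
        have hc := check_w_unique _ hwf.1 _ hwf.2.1 _ (hw k) _ (st_next (n + k))
        have hcases : ∀ x y : Fin 2, x ≠ y → (x = 0 ∧ y = 1) ∨ (x = 1 ∧ y = 0) := by decide
        rcases hcases _ _ hne with ⟨b1, b2⟩ | ⟨b1, b2⟩
        · rw [b1] at a1
          rw [b2] at a2
          rcases hc with hc | hc
          · exact a1 hc
          · exact a2 hc
        · rw [b1] at a1
          rw [b2] at a2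
          rcases hc with hc | hc
          · exact a2 hc
          · exact a1 hc
  funext l
  exact hall (l + 1) l (by omega)

theorem countable_expansions (hg : Good β) : (expansions β (bval β aD)).Countable := by
  have hb := hg.one_lt
  -- cover
  have hsub : expansions β (bval β aD) ⊆ {(aD : DigitSeq)} ∪ ⋃ n : ℕ,
      {ε : DigitSeq | ε ∈ expansions β (bval β aD) ∧ dv ε n ∈ wN (st n).kd (st n).i} := by
    intro ε hε
    by_cases h : ε = aD
    · left
      exact h
    · right
      obtain ⟨n, hn⟩ := eventually_w hg ((mem_expansions_iff hb).1 hε) h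
      exact Set.mem_iUnion.2 ⟨n, hε, hn⟩
  refine Set.Countable.mono hsub ((Set.countable_singleton _).union (Set.countable_iUnion ?_))
  intro n
  have hinj : Set.InjOn (fun ε : DigitSeq => fun i : Fin n => ε i)
      {ε : DigitSeq | ε ∈ expansions β (bval β aD) ∧ dv ε n ∈ wN (st n).kd (st n).i} := by
    intro ε hε ε' hε' h
    refine unique_w hg ((mem_expansions_iff hb).1 hε.1) ((mem_expansions_iff hb).1 hε'.1) hε.2 ?_
    intro k hk
    exact congrFun h ⟨k, hk⟩
  exact Set.MapsTo.countable_of_injOn (Set.mapsTo_univ _ _) hinj Set.countable_univ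

end Pool.Agent.MP_523de7_an
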