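import Mathlib
import Pool.Agent.Lib.MP_523de7_an.Count

/-!
Lower bound for the number of prefixes, for MP_523de7_an.
-/

open Filter Topology

noncomputable section

namespace Pool.Agent.MP_523de7_an

variable {β : ℝ}

/-- number of `k`-prefixes of the point (spine at time `n`) + `d` -/
def M (β : ℝ) (n : ℕ) (d : V5) (k : ℕ) : ℕ := prefixCount β (tl β aD n + val β d) k

lemma M_point (hg : Good β) (n : ℕ) (d : V5) (t : ℤ) :
    tl β aD (n + 1) + val β (stepV d (dz (st n).kd (st n).i - t))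
      = β * (tl β aD n + val β d) - t := by
  rw [tl_succ hg.one_lt, val_step hg, ← aD_int]
  push_cast
  ring

lemma M_step (hg : Good β) (n : ℕ) (d : V5) (k : ℕ) (e : Fin 2) :
    M β (n + 1) (stepV d (dz (st n).kd (st n).i - ((e : ℕ) : ℤ))) k ≤ M β n d (k + 1) := by
  unfold M
  rw [M_point hg]
  have := prefixCount_succ_ge hg.one_lt (tl β aD n + val β d) k e
  push_cast
  exact this

lemma M_add (hg : Good β) (n : ℕ) (d : V5) (k : ℕ) :
    M β (n + 1) (stepV d (dz (st n).kd (st n).i - 0)) k +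
      M β (n + 1) (stepV d (dz (st n).kd (st n).i - 1)) k ≤ M β n d (k + 1) := by
  unfold M
  rw [M_point hg, M_point hg]
  have := prefixCount_succ_ge_add hg.one_lt (tl β aD n + val β d) k
  push_cast
  rw [sub_zero]
  exact this

/-- follow a word -/
def runV : V5 → List (ℤ × Fin 2) → V5
  | d, [] => d
  | d, p :: l => runV (stepV d (p.1 - ((p.2 : ℕ) : ℤ))) l

lemma M_run (hg : Good β) (l : List (ℤ × Fin 2)) : ∀ (n : ℕ) (d : V5) (k : ℕ),
    (∀ i (hi : i < l.length), dz (st (n + i)).kd (st (n + i)).i = (l[i]).1) →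
    M β (n + l.length) (runV d l) k ≤ M β n d (k + l.length) := by
  induction l with
  | nil => intro n d k _; exact le_refl _
  | cons p l ih =>
    intro n d k h
    have h0 : dz (st n).kd (st n).i = p.1 := h 0 (by simp)
    have h1 := M_step hg n d (k + l.length) p.2
    rw [h0] at h1
    have h2 := ih (n + 1) (stepV d (p.1 - ((p.2 : ℕ) : ℤ))) k (by
      intro i hi
      have := h (i + 1) (by simpa using hi)
      rw [show n + 1 + i = n + (i + 1) by ring]
      simpa using this)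
    have e1 : n + (p :: l).length = n + 1 + l.length := by simp; ring
    have e2 : k + (p :: l).length = k + l.length + 1 := by simp; ring
    rw [e1, e2]
    exact h2.trans h1

lemma M_spine (hg : Good β) (n k : ℕ) :
    M β n (0, 0, 0, 0, 0) k ≤ M β 0 (0, 0, 0, 0, 0) (k + n) := by
  induction n generalizing k with
  | zero => exact le_refl _
  | succ n ih =>
    have h1 := M_step hg n (0, 0, 0, 0, 0) k (aD n)
    rw [← aD_int] at h1
    have e : stepV (0, 0, 0, 0, 0) (((aD n : ℕ) : ℤ) - ((aD n : ℕ) : ℤ)) = (0, 0, 0, 0, 0) := by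
      simp [stepV]
    rw [e] at h1
    have h2 := ih (k + 1)
    rw [show k + (n + 1) = k + 1 + n by ring]
    exact h1.trans h2

/-- the base point of the doubling loop -/
def E0 : V5 := (1, -1, 0, 2, -1)

/-- the digits during a loop -/
def loopDigits : List ℤ := [1, 0, 1, 0, 1, 0, 0, 1]

lemma loop (hg : Good β) (n k : ℕ)
    (h : ∀ i (hi : i < 8), dz (st (n + i)).kd (st (n + i)).i = loopDigits[i]) :
    2 * M β (n + 8) E0 k ≤ M β n E0 (k + 8) := by
  have h0 : dz (st n).kd (st n).i = 1 := h 0 (by omega)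
  have h1 := M_add hg n E0 (k + 7)
  rw [h0] at h1
  have hrest : ∀ l : List (ℤ × Fin 2), l.map Prod.fst = [0, 1, 0, 1, 0, 0, 1] →
      ∀ i (hi : i < l.length), dz (st (n + 1 + i)).kd (st (n + 1 + i)).i = (l[i]).1 := by
    intro l hl i hi
    have hlen : l.length = 7 := by
      have := congrArg List.length hl
      simpa using this
    have e1 : (l[i]).1 = (l.map Prod.fst)[i]'(by simpa using hi) := by simp
    rw [e1]
    have h2 := h (i + 1) (by omega)
    rw [show n + 1 + i = n + (i + 1) by ring, h2]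
    simp only [hl]
    rfl
  have a0 := M_run hg [(0, 1), (1, 1), (0, 1), (1, 1), (0, 1), (0, 1), (1, 1)] (n + 1)
    (stepV E0 (1 - 0)) k (hrest _ rfl)
  have a1 := M_run hg [(0, 0), (1, 0), (0, 0), (1, 1), (0, 0), (0, 1), (1, 1)] (n + 1)
    (stepV E0 (1 - 1)) k (hrest _ rfl)
  have b0 : runV (stepV E0 (1 - 0)) [(0, 1), (1, 1), (0, 1), (1, 1), (0, 1), (0, 1), (1, 1)]
      = E0 := by decide +kernel
  have b1 : runV (stepV E0 (1 - 1)) [(0, 0), (1, 0), (0, 0), (1, 1), (0, 0), (0, 1), (1, 1)]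
      = E0 := by decide +kernel
  rw [b0] at a0
  rw [b1] at a1
  simp only [List.length_cons, List.length_nil] at a0 a1
  have e1 : n + 1 + (0 + 1 + 1 + 1 + 1 + 1 + 1 + 1) = n + 8 := by ring
  have e2 : k + (0 + 1 + 1 + 1 + 1 + 1 + 1 + 1) = k + 7 := by ring
  rw [e1, e2] at a0 a1
  have e3 : k + 8 = k + 7 + 1 := by ring
  rw [e3]
  omega

/-- digits in the blocks of a phase -/
lemma phase_digit (j l i : ℕ) (hl : l < 2 ^ j + 4) (hi : i < 8) :
    dz (st (T j + 8 * l + i)).kd (st (T j + 8 * l + i)).i = dz 0 i := by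
  have hs := st_T j
  obtain ⟨h1, h2, h3, h4, h5, h6⟩ := st_phase hs
  have hp : 0 < 2 ^ j := by positivity
  have hv : ∀ kd < 5, ∀ i < 8, dz kd i = dz 0 i := by decide +kernel
  rcases Nat.lt_or_ge l 3 with hl3 | hl3
  · interval_cases l
    · rw [mul_zero, add_zero, st_add_block (by omega) hs i hi]
    · rw [mul_one, st_add_block (by omega) h1 i hi]
      exact hv _ (by simp) _ hi
    · rw [show T j + 8 * 2 + i = T j + 16 + i by ring, st_add_block (by omega) h2 i hi]
      exact hv _ (by simp) _ hi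
  · rcases Nat.lt_or_ge (l - 3) (2 ^ j) with hlt | hge
    · have h7 := st_k3 (l - 3) (2 ^ j) hlt h3
      have e : T j + 24 + 8 * (l - 3) = T j + 8 * l := by omega
      rw [e] at h7
      rw [st_add_block (by omega) h7 i hi]
      exact hv _ (by simp) _ hi
    · have e : T j + 8 * l = T j + 24 + 8 * 2 ^ j := by omega
      rw [e, st_add_block (by omega) h4 i hi]
      exact hv _ (by simp) _ hi

lemma phase_loop_digit (j l : ℕ) (hl : l < 2 ^ j + 3) :
    ∀ i (hi : i < 8), dz (st (T j + 3 + 8 * l + i)).kd (st (T j + 3 + 8 * l + i)).i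
      = loopDigits[i] := by
  intro i hi
  rcases Nat.lt_or_ge i 5 with h5 | h5
  · have := phase_digit j l (i + 3) (by omega) (by omega)
    rw [show T j + 8 * l + (i + 3) = T j + 3 + 8 * l + i by ring] at this
    rw [this]
    interval_cases i <;> rfl
  · have := phase_digit j (l + 1) (i - 5) (by omega) (by omega)
    rw [show T j + 8 * (l + 1) + (i - 5) = T j + 3 + 8 * l + i by omega] at this
    rw [this]
    interval_cases i <;> rfl

lemma loops (hg : Good β) (j : ℕ) : ∀ L ≤ 2 ^ j + 3, ∀ k,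
    2 ^ L * M β (T j + 3 + 8 * L) E0 k ≤ M β (T j + 3) E0 (k + 8 * L) := by
  intro L
  induction L with
  | zero => intro _ k; simp
  | succ L ih =>
    intro hL k
    have h1 := ih (by omega) (k + 8)
    have h2 := loop hg (T j + 3 + 8 * L) k (phase_loop_digit j L (by omega))
    have e1 : T j + 3 + 8 * (L + 1) = T j + 3 + 8 * L + 8 := by ring
    have e2 : k + 8 * (L + 1) = k + 8 + 8 * L := by ring
    rw [e1, e2, pow_succ]
    calc 2 ^ L * 2 * M β (T j + 3 + 8 * L + 8) E0 k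
        = 2 ^ L * (2 * M β (T j + 3 + 8 * L + 8) E0 k) := by ring
      _ ≤ 2 ^ L * M β (T j + 3 + 8 * L) E0 (k + 8) := Nat.mul_le_mul_left _ h2
      _ ≤ _ := h1

/-- from the spine to the loop -/
lemma to_loop (hg : Good β) (j k : ℕ) :
    M β (T (j + 1) + 3) E0 k ≤ M β (T j + 8 * 2 ^ j + 30) (0, 0, 0, 0, 0) (k + 10) := by
  have hs := st_T j
  obtain ⟨h1, h2, h3, h4, h5, h6⟩ := st_phase hs
  set n := T j + 8 * 2 ^ j + 30 with hn
  have h := M_run hg [(0, 1), (1, 0), (1, 0), (1, 0), (1, 0), (0, 1), (1, 0), (0, 1), (0, 1),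
    (1, 1)] n (0, 0, 0, 0, 0) k (by
      intro i hi
      have hi' : i < 10 := by simpa using hi
      have c0 : ∀ i < 8, dz (st (T j + 24 + 8 * 2 ^ j + i)).kd
          (st (T j + 24 + 8 * 2 ^ j + i)).i = dz 4 i := by
        intro i hi
        rw [st_add_block (by omega) h4 i hi]
      have b0 : st (T j + 32 + 8 * 2 ^ j + 0) = ⟨5, 0, 1, j⟩ := h5
      have b1 : st (T j + 32 + 8 * 2 ^ j + 1) = ⟨5, 1, 1, j⟩ := by
        have : st (T j + 32 + 8 * 2 ^ j + 1) = nextSt (st (T j + 32 + 8 * 2 ^ j)) := rfl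
        rw [this, h5]; simp [nextSt]
      have b2 : st (T j + 32 + 8 * 2 ^ j + 2) = ⟨5, 2, 1, j⟩ := by
        have : st (T j + 32 + 8 * 2 ^ j + 2) = nextSt (st (T j + 32 + 8 * 2 ^ j + 1)) := rfl
        rw [this, b1]; simp [nextSt]
      have b3 : st (T j + 32 + 8 * 2 ^ j + 3) = ⟨5, 3, 1, j⟩ := by
        have : st (T j + 32 + 8 * 2 ^ j + 3) = nextSt (st (T j + 32 + 8 * 2 ^ j + 2)) := rfl
        rw [this, b2]; simp [nextSt]
      have b4 : st (T j + 32 + 8 * 2 ^ j + 4) = ⟨5, 4, 1, j⟩ := by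
        have : st (T j + 32 + 8 * 2 ^ j + 4) = nextSt (st (T j + 32 + 8 * 2 ^ j + 3)) := rfl
        rw [this, b3]; simp [nextSt]
      have eT : T (j + 1) = T j + 8 * 2 ^ j + 37 := rfl
      have d0 : ∀ i < 8, dz (st (T (j + 1) + i)).kd (st (T (j + 1) + i)).i = dz 0 i := by
        intro i hi
        have := phase_digit (j + 1) 0 i (by positivity) hi
        simpa using this
      interval_cases i
      · rw [show n + 0 = T j + 24 + 8 * 2 ^ j + 6 by omega, c0 6 (by omega)]; rfl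
      · rw [show n + 1 = T j + 24 + 8 * 2 ^ j + 7 by omega, c0 7 (by omega)]; rfl
      · rw [show n + 2 = T j + 32 + 8 * 2 ^ j + 0 by omega, b0]; rfl
      · rw [show n + 3 = T j + 32 + 8 * 2 ^ j + 1 by omega, b1]; rfl
      · rw [show n + 4 = T j + 32 + 8 * 2 ^ j + 2 by omega, b2]; rfl
      · rw [show n + 5 = T j + 32 + 8 * 2 ^ j + 3 by omega, b3]; rfl
      · rw [show n + 6 = T j + 32 + 8 * 2 ^ j + 4 by omega, b4]; rfl
      · rw [show n + 7 = T (j + 1) + 0 by omega, d0 0 (by omega)]; rfl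
      · rw [show n + 8 = T (j + 1) + 1 by omega, d0 1 (by omega)]; rfl
      · rw [show n + 9 = T (j + 1) + 2 by omega, d0 2 (by omega)]; rfl)
  have b : runV (0, 0, 0, 0, 0) [(0, 1), (1, 0), (1, 0), (1, 0), (1, 0), (0, 1), (1, 0), (0, 1),
    (0, 1), (1, 1)] = E0 := by decide +kernel
  rw [b] at h
  simp only [List.length_cons, List.length_nil] at h
  have e1 : n + (0 + 1 + 1 + 1 + 1 + 1 + 1 + 1 + 1 + 1 + 1) = T (j + 1) + 3 := by
    have eT : T (j + 1) = T j + 8 * 2 ^ j + 37 := rfl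
    omega
  have e2 : k + (0 + 1 + 1 + 1 + 1 + 1 + 1 + 1 + 1 + 1 + 1) = k + 10 := by ring
  rw [e1, e2] at h
  exact h

/-- the end of the loops is a point of `[0, 1/(β-1)]` -/
lemma end_pos (hg : Good β) (j : ℕ) : 1 ≤ M β (T j + 3 + 8 * (2 ^ j + 3)) E0 0 := by
  have hs := st_T j
  obtain ⟨h1, h2, h3, h4, h5, h6⟩ := st_phase hs
  have e : T j + 3 + 8 * (2 ^ j + 3) = T j + 24 + 8 * 2 ^ j + 3 := by ring
  have hst : st (T j + 3 + 8 * (2 ^ j + 3)) = ⟨4, 3, 1, j⟩ := by
    rw [e, st_add_block (by omega) h4 3 (by omega)]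
  have hb := hg.spine_bounds (T j + 3 + 8 * (2 ^ j + 3))
  rw [hst] at hb
  have hU := hg.val_le E0
  have hL := hg.le_val E0
  have c1 : lb 4 3 = 761685 := by decide +kernel
  have c2 : ub 4 3 = 761690 := by decide +kernel
  have c3 : vU E0 = -137646 := by decide +kernel
  have c4 : vL E0 = -137650 := by decide +kernel
  simp only [c1, c2] at hb
  rw [c3] at hU
  rw [c4] at hL
  push_cast at hb hU hL
  have h7 := hg.one_lt
  have h8 : (1 : ℝ) ≤ 1 / (β - 1) := by
    rw [le_div_iff₀ (by linarith)]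
    linarith [hg.le_two]
  unfold M
  apply prefixCount_pos hg.one_lt hg.le_two
  · linarith [hb.1]
  · linarith [hb.2]

/-- exponential lower bound at the end of the phase `j + 1` -/
lemma count_ge (hg : Good β) (j : ℕ) :
    2 ^ (2 ^ (j + 1) + 3) ≤ prefixCount β (bval β aD) (T (j + 2)) := by
  have h1 := M_spine hg (T j + 8 * 2 ^ j + 30) (8 * (2 ^ (j + 1) + 3) + 10)
  have h2 := to_loop hg j (8 * (2 ^ (j + 1) + 3))
  have h3 := loops hg (j + 1) (2 ^ (j + 1) + 3) (le_refl _) 0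
  have h4 := end_pos hg (j + 1)
  rw [zero_add] at h3
  have h5 : 2 ^ (2 ^ (j + 1) + 3) ≤ M β 0 (0, 0, 0, 0, 0)
      (8 * (2 ^ (j + 1) + 3) + 10 + (T j + 8 * 2 ^ j + 30)) := by
    calc 2 ^ (2 ^ (j + 1) + 3) = 2 ^ (2 ^ (j + 1) + 3) * 1 := by ring
      _ ≤ 2 ^ (2 ^ (j + 1) + 3) * M β (T (j + 1) + 3 + 8 * (2 ^ (j + 1) + 3)) E0 0 :=
        Nat.mul_le_mul_left _ h4
      _ ≤ _ := h3
      _ ≤ _ := h2
      _ ≤ _ := h1
  have h6 : M β 0 (0, 0, 0, 0, 0) (8 * (2 ^ (j + 1) + 3) + 10 + (T j + 8 * 2 ^ j + 30))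
      = prefixCount β (bval β aD) (8 * (2 ^ (j + 1) + 3) + 10 + (T j + 8 * 2 ^ j + 30)) := by
    unfold M
    rw [tl_zero]
    simp [val]
  rw [h6] at h5
  refine h5.trans (prefixCount_mono _ ?_)
  have e1 : T (j + 1) = T j + 8 * 2 ^ j + 37 := rfl
  have e2 : T (j + 2) = T (j + 1) + 8 * 2 ^ (j + 1) + 37 := rfl
  omega

lemma T_eq (j : ℕ) : T j + 8 = 8 * 2 ^ j + 37 * j := by
  induction j with
  | zero => rfl
  | succ j ih =>
    have e1 : T (j + 1) = T j + 8 * 2 ^ j + 37 := rfl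
    have e2 : 2 ^ (j + 1) = 2 * 2 ^ j := by rw [pow_succ]; ring
    rw [e1, e2]
    omega

lemma T_upper (j : ℕ) : T (j + 3) ≤ 204 * 2 ^ j := by
  have h := T_eq (j + 3)
  have e : 2 ^ (j + 3) = 8 * 2 ^ j := by rw [pow_add]; ring
  have hj : j < 2 ^ j := Nat.lt_two_pow_self
  rw [e] at h
  omega

lemma T_strictMono : StrictMono T := by
  apply strictMono_nat_of_lt_succ
  intro n
  have e1 : T (n + 1) = T n + 8 * 2 ^ n + 37 := rfl
  omega

lemma ratio_ge (hg : Good β) {k : ℕ} (hk : T 2 ≤ k) :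
    (1 / 102 : ℝ) ≤ Real.logb 2 (prefixCount β (bval β aD) k) / k := by
  classical
  -- find the phase
  have hex : ∃ j, k < T (j + 3) := ⟨k, by have := T_ge (k + 3); omega⟩
  set j := Nat.find hex with hj
  have h1 : k < T (j + 3) := Nat.find_spec hex
  have h2 : T (j + 2) ≤ k := by
    rcases Nat.eq_zero_or_pos j with h0 | h0
    · rw [h0]; exact hk
    · have := Nat.find_min hex (m := j - 1) (by omega)
      push Not at this
      rw [show j - 1 + 3 = j + 2 by omega] at this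
      exact this
  have h3 : 2 ^ (2 ^ (j + 1) + 3) ≤ prefixCount β (bval β aD) k :=
    (count_ge hg j).trans (prefixCount_mono _ h2)
  have h4 : (k : ℝ) ≤ 204 * 2 ^ j := by
    have := T_upper j
    have h5 : k ≤ 204 * 2 ^ j := by omega
    exact_mod_cast h5
  have hkpos : (0 : ℝ) < k := by
    have : 0 < T 2 := by simp [T]
    have : 0 < k := by omega
    exact_mod_cast this
  rw [le_div_iff₀ hkpos]
  have h5 : ((2 ^ (j + 1) + 3 : ℕ) : ℝ) ≤ Real.logb 2 (prefixCount β (bval β aD) k) := by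
    rw [Real.le_logb_iff_rpow_le (by norm_num)]
    · rw [Real.rpow_natCast]
      exact_mod_cast h3
    · have : 0 < prefixCount β (bval β aD) k := lt_of_lt_of_le (by positivity) h3
      exact_mod_cast this
  refine le_trans ?_ h5
  push_cast
  have h6 : (2 : ℝ) ^ (j + 1) = 2 * 2 ^ j := by rw [pow_succ]; ring
  rw [h6]
  linarith

theorem lowerGrowth_pos (hg : Good β) : 0 < lowerGrowth β (bval β aD) := by
  have hev : ∀ᶠ k : ℕ in atTop,
      (1 / 102 : ℝ) ≤ Real.logb 2 (prefixCount β (bval β aD) k) / k := by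
    filter_upwards [eventually_ge_atTop (T 2)] with k hk
    exact ratio_ge hg hk
  have hupper : ∀ k : ℕ, Real.logb 2 (prefixCount β (bval β aD) k) / k ≤ 1 := by
    intro k
    rcases Nat.eq_zero_or_pos k with h0 | h0
    · subst h0; simp
    · have hk : (0 : ℝ) < k := by exact_mod_cast h0
      rw [div_le_one hk]
      have hp : 1 ≤ prefixCount β (bval β aD) k :=
        prefixCount_pos hg.one_lt hg.le_two (bval_nonneg hg.one_lt _) (bval_le hg.one_lt _) k
      rw [Real.logb_le_iff_le_rpow (by norm_num) (by exact_mod_cast hp), Real.rpow_natCast]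
      exact_mod_cast prefixCount_le (bval β aD) k
  have hcob : IsCoboundedUnder (· ≥ ·) atTop
      (fun k : ℕ => Real.logb 2 (prefixCount β (bval β aD) k) / k) :=
    (isBoundedUnder_of ⟨1, hupper⟩ : IsBoundedUnder (· ≤ ·) atTop _).isCoboundedUnder_ge
  have := le_liminf_of_le hcob hev
  unfold lowerGrowth
  linarith

end Pool.Agent.MP_523de7_an
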